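import Pool.Agent.Helper22_DEN.Main

open scoped BigOperators

namespace Pool.Agent.DEN.H76

section
variable {r : ℕ} {C : Matrix (Fin r) (Fin r) ℤ} {K : Type} [Field K]

/-- The torus element `t^l` is unique. -/
theorem tor_unique {l : Fin r → ℤ} {g g' : grp C K} (h : IsTor l g) (h' : IsTor l g') :
    g = g' := by
  apply Subtype.ext
  ext1 v
  rw [h v, h' v]

/-- The number of dominant vectors with small simple heights. -/
theorem cnt_lset (hRoots : RootSignStmt) (hC : SimplyLaced C) (D : ℕ)
    (L : Finset (Fin r → ℤ))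
    (hL : ∀ l ∈ L, ∀ i, 0 ≤ ip C (al i) l ∧ ip C (al i) l < D) : L.card ≤ D ^ r := by
  classical
  have hinj := (hRoots r C hC).2.2.1
  have h1 : L.card ≤ (Fintype.piFinset (fun _ : Fin r => Finset.range D)).card := by
    refine Finset.card_le_card_of_injOn (fun l i => (ip C (al i) l).toNat) ?_ ?_
    · intro l hl
      simp only [Finset.mem_coe, Fintype.mem_piFinset, Finset.mem_range]
      intro i
      have := hL l hl i
      omega
    · intro l hl l' hl' h
      refine hinj l l' fun i => ?_
      have h1 := congrFun h i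
      have h2 := hL l hl i
      have h3 := hL l' hl' i
      simp only at h1
      omega
  refine h1.trans ?_
  rw [Fintype.card_piFinset]
  simp

/-- CNT. -/
theorem cnt (hBir : BirStmt) (hVan : VanStmt) (hStl : StlStmt) (hMas : MasStmt)
    (hFin : FinStmt) (hFsp : FspStmt) (hRoots : RootSignStmt) (hNrm : NrmStmt) : CntStmt := by
  classical
  intro r C hC K _ _ hr N hN n f hf hone w hw B hB hbound
  by_cases hD : N.natDegree = 0
  · have := H22.n_zero hBir hVan hr hC N hN hD n f hf hone
    subst this
    simp only [Finset.univ_eq_empty, Finset.sum_empty]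
    positivity
  have hSfin : {o : MulAction.orbitRel.Quotient (cong C K 1 N) (XX C K) |
      ∃ j, f j o.out ≠ 0}.Finite := by
    have h : {o : MulAction.orbitRel.Quotient (cong C K 1 N) (XX C K) | ∃ j, f j o.out ≠ 0} =
        ⋃ j, {o | f j o.out ≠ 0} := by
      ext o; simp
    rw [h]
    exact Set.finite_iUnion fun j => hFsp r C hC K N hN (f j) (hf j)
  obtain ⟨S, hS⟩ : ∃ S : Finset (MulAction.orbitRel.Quotient (cong C K 1 N) (XX C K)),
      ∀ o, o ∈ S ↔ ∃ j, f j o.out ≠ 0 := ⟨hSfin.toFinset, fun o => by simp⟩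
  choose γ hγ l g hg hl hx using
    fun o : MulAction.orbitRel.Quotient (cong C K 1 N) (XX C K) => hBir r C hC K o.out
  have h1 : ∀ j, ∑ o ∈ S, ‖f j o.out‖ ^ 2 /
      (Nat.card (MulAction.stabilizer (cong C K 1 N) o.out) : ℝ) = 1 := by
    intro j
    have h2 := hone j
    unfold petersson at h2
    rw [finsum_eq_sum_of_support_subset (s := S)] at h2
    · have h3 : ((∑ o ∈ S, ‖f j o.out‖ ^ 2 /
          (Nat.card (MulAction.stabilizer (cong C K 1 N) o.out) : ℝ) : ℝ) : ℂ) = 1 := by
        rw [← h2]
        push_cast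
        refine Finset.sum_congr rfl fun o _ => ?_
        rw [← Complex.normSq_eq_conj_mul_self, Complex.normSq_eq_norm_sq]
        push_cast
        rfl
      exact_mod_cast h3
    · intro o ho
      rw [Finset.mem_coe, hS]
      refine ⟨j, fun h0 => ?_⟩
      apply ho
      simp [h0]
  have hidx : ∀ l' ∈ S.image l, ∑ o ∈ S with l o = l',
      (B * (Nat.card K : ℝ) ^ dep C (l o)) /
        (Nat.card (MulAction.stabilizer (cong C K 1 N) o.out) : ℝ) ≤
      (cong C K 1 N).relIndex (arith C K 1) * B := by
    intro l' hl'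
    obtain ⟨o₀, ho₀, rfl⟩ := Finset.mem_image.mp hl'
    have hfinst := (hFin r C hC K).1 (pt (g o₀))
    have hout : ∀ o o' : MulAction.orbitRel.Quotient (cong C K 1 N) (XX C K),
        (∃ δ ∈ cong C K 1 N, δ • o.out = o'.out) → o = o' := by
      rintro o o' ⟨δ, hδ, h⟩
      have h2 : (MulAction.orbitRel (cong C K 1 N) (XX C K)) o'.out o.out := by
        rw [MulAction.orbitRel_apply]
        exact ⟨⟨δ, hδ⟩, h⟩
      have h3 : (Quotient.mk _ o'.out : MulAction.orbitRel.Quotient (cong C K 1 N) (XX C K)) =
        Quotient.mk _ o.out := Quotient.sound h2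
      rw [Quotient.out_eq, Quotient.out_eq] at h3
      exact h3.symm
    have hm := hMas (grp C K) (XX C K) (arith C K 1) (cong C K 1 N) (fun x hx => hx.1)
      (fun a ha b hb => (hNrm r C hC K 1 N one_ne_zero hN isCoprime_one_left).1 a ha b hb)
      ((hFin r C hC K).2.2 N hN) (pt (g o₀)) hfinst
      ((S.filter (fun o => l o = l o₀)).image Quotient.out)
      (by
        intro y hy
        obtain ⟨o, ho, rfl⟩ := Finset.mem_image.mp hy
        rw [Finset.mem_filter] at ho
        refine ⟨γ o, hγ o, ?_⟩
        have e1 : g o = g o₀ := by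
          have := hg o
          rw [ho.2] at this
          exact tor_unique this (hg o₀)
        rw [← e1]
        exact hx o)
      (by
        intro y hy y' hy' h
        obtain ⟨o, ho, rfl⟩ := Finset.mem_image.mp hy
        obtain ⟨o', ho', rfl⟩ := Finset.mem_image.mp hy'
        rw [hout o o' h])
    rw [Finset.sum_image (fun a _ b _ h => Quotient.out_injective h)] at hm
    have hstl := hStl r C hC K (l o₀) (g o₀) (hg o₀) (hl o₀)
    calc ∑ o ∈ S with l o = l o₀, (B * (Nat.card K : ℝ) ^ dep C (l o)) /
        (Nat.card (MulAction.stabilizer (cong C K 1 N) o.out) : ℝ)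
        ≤ ∑ o ∈ S with l o = l o₀, B *
          ((Nat.card (MulAction.stabilizer (arith C K 1) (pt (g o₀))) : ℝ) /
          (Nat.card (MulAction.stabilizer (cong C K 1 N) o.out) : ℝ)) := by
          refine Finset.sum_le_sum fun o ho => ?_
          rw [Finset.mem_filter] at ho
          rw [ho.2, mul_div_assoc]
          refine mul_le_mul_of_nonneg_left ?_ hB
          refine div_le_div_of_nonneg_right ?_ (Nat.cast_nonneg _)
          exact_mod_cast hstl
      _ = B * ∑ o ∈ S with l o = l o₀,
          ((Nat.card (MulAction.stabilizer (arith C K 1) (pt (g o₀))) : ℝ) /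
          (Nat.card (MulAction.stabilizer (cong C K 1 N) o.out) : ℝ)) := by
          rw [Finset.mul_sum]
      _ ≤ B * (cong C K 1 N).relIndex (arith C K 1) := mul_le_mul_of_nonneg_left hm hB
      _ = _ := mul_comm _ _
  have hcard : ((S.image l).card : ℝ) ≤ (N.natDegree : ℝ) ^ r := by
    have := cnt_lset hRoots hC N.natDegree (S.image l) (by
      intro l' hl' i
      obtain ⟨o, ho, rfl⟩ := Finset.mem_image.mp hl'
      refine ⟨hl o i, ?_⟩
      obtain ⟨j, hj⟩ := (hS o).mp ho
      by_contra hlt
      apply hj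
      rw [hx o]
      refine hVan r C hC K N hN (f j) (hf j) (γ o) (hγ o) (l o) (g o) (hg o) (hl o) i ?_
      omega)
    exact_mod_cast this
  calc ∑ j, w j = ∑ j, w j * ∑ o ∈ S, ‖f j o.out‖ ^ 2 /
      (Nat.card (MulAction.stabilizer (cong C K 1 N) o.out) : ℝ) := by
        refine Finset.sum_congr rfl fun j _ => ?_
        rw [h1 j, mul_one]
    _ = ∑ o ∈ S, (∑ j, w j * ‖f j o.out‖ ^ 2) /
      (Nat.card (MulAction.stabilizer (cong C K 1 N) o.out) : ℝ) := by
        simp only [Finset.mul_sum, Finset.sum_div]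
        rw [Finset.sum_comm]
        refine Finset.sum_congr rfl fun o _ => Finset.sum_congr rfl fun j _ => ?_
        rw [mul_div_assoc]
    _ ≤ ∑ o ∈ S, (B * (Nat.card K : ℝ) ^ dep C (l o)) /
      (Nat.card (MulAction.stabilizer (cong C K 1 N) o.out) : ℝ) := by
        refine Finset.sum_le_sum fun o _ => ?_
        refine div_le_div_of_nonneg_right ?_ (Nat.cast_nonneg _)
        have := hbound (γ o) (hγ o) (l o) (g o) (hg o) (hl o)
        rwa [← hx o] at this
    _ = ∑ l' ∈ S.image l, ∑ o ∈ S with l o = l', (B * (Nat.card K : ℝ) ^ dep C (l o)) /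
      (Nat.card (MulAction.stabilizer (cong C K 1 N) o.out) : ℝ) :=
        (Finset.sum_fiberwise_of_maps_to
          (fun o ho => Finset.mem_image_of_mem l ho) _).symm
    _ ≤ ∑ l' ∈ S.image l, (cong C K 1 N).relIndex (arith C K 1) * B :=
        Finset.sum_le_sum hidx
    _ = (S.image l).card * ((cong C K 1 N).relIndex (arith C K 1) * B) := by
        simp
    _ ≤ (N.natDegree : ℝ) ^ r * ((cong C K 1 N).relIndex (arith C K 1) * B) :=
        mul_le_mul_of_nonneg_right hcard (by positivity)
    _ = _ := by ring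

end

end Pool.Agent.DEN.H76
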