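import Pool.Agent.Helper22_DEN.Stmt

open scoped BigOperators

namespace Pool.Agent.DEN.H76

/-- The positive roots. -/
abbrev PR {r : ℕ} (C : Matrix (Fin r) (Fin r) ℤ) : Type := {β : Rt C // β.Pos}

section
variable {r : ℕ} {C : Matrix (Fin r) (Fin r) ℤ} {K : Type} [Field K]

theorem EE_fst (β : Rt C) : (EE (K := K) β).1 = 0 := rfl

theorem EE_self (β : Rt C) : (EE (K := K) β).2 β = 1 := by
  unfold EE
  simp

theorem EE_ne {β γ : Rt C} (h : γ ≠ β) : (EE (K := K) β).2 γ = 0 := by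
  unfold EE
  simp [h]

/-- All the coordinates of `v`. -/
def cc (v : LieV C (FF K)) : Fin r ⊕ Rt C → FF K := Sum.elim v.1 v.2

theorem cc_add (v w : LieV C (FF K)) (s : Fin r ⊕ Rt C) : cc (v + w) s = cc v s + cc w s := by
  cases s <;> rfl

theorem cc_smul (a : FF K) (v : LieV C (FF K)) (s : Fin r ⊕ Rt C) :
    cc (a • v) s = a * cc v s := by
  cases s <;> rfl

theorem cc_zero (s : Fin r ⊕ Rt C) : cc (0 : LieV C (FF K)) s = 0 := by
  cases s <;> rfl

theorem cc_sum {ι : Type} (t : Finset ι) (a : ι → FF K) (v : ι → LieV C (FF K))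
    (s : Fin r ⊕ Rt C) : cc (∑ i ∈ t, a i • v i) s = ∑ i ∈ t, a i * cc (v i) s := by
  classical
  induction t using Finset.induction_on with
  | empty => simp [cc_zero]
  | insert i t hi ih => rw [Finset.sum_insert hi, Finset.sum_insert hi, cc_add, cc_smul, ih]

theorem ext_cc {v w : LieV C (FF K)} (h : ∀ s, cc v s = cc w s) : v = w := by
  refine Prod.ext ?_ ?_
  · funext i
    exact h (Sum.inl i)
  · funext γ
    exact h (Sum.inr γ)

/-- The span of the positive root vectors. -/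
def nn (C : Matrix (Fin r) (Fin r) ℤ) (K : Type) [Field K] :
    Submodule (FF K) (LieV C (FF K)) where
  carrier := {v | v.1 = 0 ∧ ∀ δ : Rt C, ¬ δ.Pos → v.2 δ = 0}
  add_mem' := by
    rintro v w ⟨h1, h2⟩ ⟨h3, h4⟩
    refine ⟨?_, fun δ hδ => ?_⟩
    · rw [Prod.fst_add, h1, h3, add_zero]
    · rw [Prod.snd_add, Pi.add_apply, h2 δ hδ, h4 δ hδ, add_zero]
  zero_mem' := ⟨rfl, fun _ _ => rfl⟩
  smul_mem' := by
    rintro a v ⟨h1, h2⟩
    refine ⟨?_, fun δ hδ => ?_⟩
    · rw [Prod.smul_fst, h1, smul_zero]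
    · rw [Prod.smul_snd, Pi.smul_apply, h2 δ hδ, smul_zero]

theorem mem_nn {v : LieV C (FF K)} :
    v ∈ nn C K ↔ v.1 = 0 ∧ ∀ δ : Rt C, ¬ δ.Pos → v.2 δ = 0 := Iff.rfl

theorem nn_decomp [Fintype (PR C)] {v : LieV C (FF K)} (hv : v ∈ nn C K) :
    v = ∑ γ : PR C, v.2 γ.1 • EE (K := K) γ.1 := by
  classical
  apply ext_cc
  intro s
  rw [cc_sum]
  rw [mem_nn] at hv
  cases s with
  | inl i =>
    have h1 : cc v (Sum.inl i) = 0 := by
      show v.1 i = 0
      rw [hv.1]; rfl
    rw [h1]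
    symm
    apply Finset.sum_eq_zero
    intro γ _
    show v.2 γ.1 * (EE (K := K) γ.1).1 i = 0
    rw [EE_fst]; simp
  | inr δ =>
    show v.2 δ = ∑ γ : PR C, v.2 γ.1 * (EE (K := K) γ.1).2 δ
    by_cases hδ : δ.Pos
    · rw [Finset.sum_eq_single (⟨δ, hδ⟩ : PR C)]
      · rw [EE_self, mul_one]
      · intro γ _ hγ
        rw [EE_ne, mul_zero]
        intro h
        apply hγ
        exact Subtype.ext h.symm
      · intro h
        exact absurd (Finset.mem_univ _) h
    · rw [hv.2 δ hδ]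
      symm
      apply Finset.sum_eq_zero
      intro γ _
      rw [EE_ne, mul_zero]
      intro h
      exact hδ (h ▸ γ.2)

theorem app_decomp [Fintype (PR C)] (h : grp C K) {v : LieV C (FF K)} (hv : v ∈ nn C K) :
    h.1 v = ∑ γ : PR C, v.2 γ.1 • h.1 (EE (K := K) γ.1) := by
  conv_lhs => rw [nn_decomp hv]
  rw [map_sum]
  refine Finset.sum_congr rfl fun γ _ => ?_
  rw [map_smul]

theorem EE_mem (γ : PR C) : EE (K := K) γ.1 ∈ nn C K := by
  rw [mem_nn]
  refine ⟨EE_fst _, fun δ hδ => EE_ne ?_⟩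
  rintro rfl
  exact hδ γ.2

/-- `u` preserves the span of the positive root vectors. -/
def Pres (u : grp C K) : Prop := ∀ γ : PR C, u.1 (EE (K := K) γ.1) ∈ nn C K

theorem Pres.app [Fintype (PR C)] {u : grp C K} (hu : Pres u) {v : LieV C (FF K)}
    (hv : v ∈ nn C K) : u.1 v ∈ nn C K := by
  rw [app_decomp u hv]
  exact Submodule.sum_mem _ fun γ _ => Submodule.smul_mem _ _ (hu γ)

theorem coe_mul_app (g h : grp C K) (v : LieV C (FF K)) : (g * h).1 v = g.1 (h.1 v) := rfl

theorem coe_one_app (v : LieV C (FF K)) : (1 : grp C K).1 v = v := rfl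

theorem Pres.mul [Fintype (PR C)] {u v : grp C K} (hu : Pres u) (hv : Pres v) :
    Pres (u * v) := by
  intro γ
  rw [coe_mul_app]
  exact hu.app (hv γ)

/-- The matrix of `u` on the span of the positive root vectors. -/
noncomputable def Um (u : grp C K) : Matrix (PR C) (PR C) (FF K) :=
  fun δ γ => (u.1 (EE (K := K) γ.1)).2 δ.1

/-- The columns of the positive roots of the matrix of `h`. -/
noncomputable def Bm (h : grp C K) : Matrix (Fin r ⊕ Rt C) (PR C) (FF K) :=
  fun s γ => cc (h.1 (EE (K := K) γ.1)) s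

theorem Bm_mul [Fintype (PR C)] (h : grp C K) {u : grp C K} (hu : Pres u) :
    Bm (h * u) = Bm h * Um u := by
  ext1 s γ
  rw [Matrix.mul_apply]
  show cc ((h * u).1 (EE (K := K) γ.1)) s = _
  rw [coe_mul_app, app_decomp h (hu γ), cc_sum]
  refine Finset.sum_congr rfl fun δ _ => ?_
  rw [mul_comm]
  rfl

theorem Um_mul [Fintype (PR C)] (u : grp C K) {v : grp C K} (hv : Pres v) :
    Um (u * v) = Um u * Um v := by
  ext1 δ γ
  have := congrFun (congrFun (Bm_mul u hv) (Sum.inr δ.1)) γ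
  rw [Matrix.mul_apply] at this ⊢
  exact this

theorem Um_one [DecidableEq (PR C)] : Um (1 : grp C K) = 1 := by
  ext1 δ γ
  show ((1 : grp C K).1 (EE (K := K) γ.1)).2 δ.1 = _
  rw [coe_one_app]
  by_cases h : δ = γ
  · subst h
    rw [EE_self, Matrix.one_apply_eq]
  · rw [Matrix.one_apply_ne h, EE_ne]
    intro h'
    exact h (Subtype.ext h')

theorem Pres.one : Pres (1 : grp C K) := fun γ => EE_mem γ

theorem ht_neg (β : Rt C) : ht β.neg = - ht β := by
  simp [ht]

theorem ht_pos_of {β : Rt C} (hβ : β.Pos) : 0 < ht β := by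
  have h0 : β.1 ≠ 0 := by
    intro h
    have := β.2
    rw [h, ip_zero_left] at this
    norm_num at this
  have h1 : 0 ≤ ht β := Finset.sum_nonneg fun i _ => hβ i
  rcases h1.lt_or_eq with h | h
  · exact h
  · exfalso
    apply h0
    have h2 := (Finset.sum_eq_zero_iff_of_nonneg (fun i _ => hβ i)).mp h.symm
    funext i
    exact h2 i (Finset.mem_univ i)

/-- The coordinates of `x_β(a) e_γ` for positive roots `β`, `γ`. -/
theorem rootMap_EE (β γ : Rt C) (hβ : β.Pos) (hγ : γ.Pos) (a : FF K) :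
    (rootMap β a (EE (K := K) γ)).1 = 0 ∧
    ∀ δ : Rt C, (rootMap β a (EE (K := K) γ)).2 δ ≠ (EE (K := K) γ).2 δ →
      δ.1 = β.1 + γ.1 := by
  have hne : β.neg ≠ γ := by
    intro h
    have h1 := ht_pos_of hβ
    have h2 := ht_pos_of hγ
    rw [← h, ht_neg] at h2
    omega
  have h0 : (EE (K := K) γ).2 β.neg = 0 := EE_ne hne
  constructor
  · funext i
    rw [rootMap_fst, h0, EE_fst]
    simp
  · intro δ hδ
    by_cases h1 : δ = β
    · exfalso
      apply hδ
      subst h1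
      rw [rootMap_snd_self, h0]
      have : pr (EE (K := K) γ) δ.1 = 0 := by
        unfold pr
        rw [EE_fst]
        simp
      rw [this]
      ring
    · by_cases h2 : ip C β.1 δ.1 = 1
      · rw [rootMap_snd_one _ _ _ _ h2] at hδ
        have h3 : crd (EE (K := K) γ) (δ.1 - β.1) ≠ 0 := by
          intro h
          apply hδ
          rw [h]; ring
        unfold crd at h3
        split_ifs at h3 with h4
        · by_contra h5
          apply h3
          apply EE_ne
          intro h6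
          apply h5
          have h7 : δ.1 - β.1 = γ.1 := congrArg Subtype.val h6
          rw [← h7]
          abel
        · exact absurd rfl h3
      · exfalso
        apply hδ
        rw [rootMap_snd_other _ _ _ _ h1 h2]

theorem pres_gen (β : Rt C) (hβ : β.Pos) (a : FF K) (g : grp C K)
    (hg : ∀ v, g.1 v = rootMap β a v) : Pres g := by
  intro γ
  rw [mem_nn, hg]
  obtain ⟨h1, h2⟩ := rootMap_EE β γ.1 hβ γ.2 a
  refine ⟨h1, fun δ hδ => ?_⟩
  by_contra h
  have h3 : (EE (K := K) γ.1).2 δ = 0 := by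
    apply EE_ne
    rintro rfl
    exact hδ γ.2
  have h4 := h2 δ (by rw [h3]; exact h)
  apply hδ
  intro i
  rw [h4]
  exact add_nonneg (hβ i) (γ.2 i)

theorem det_gen [Fintype (PR C)] [DecidableEq (PR C)] (β : Rt C) (hβ : β.Pos) (a : FF K)
    (g : grp C K) (hg : ∀ v, g.1 v = rootMap β a v) : (Um g).det = 1 := by
  have key : ∀ δ γ : PR C, Um g δ γ ≠ (1 : Matrix (PR C) (PR C) (FF K)) δ γ →
      ht γ.1 < ht δ.1 := by
    intro δ γ h
    have h1 : (1 : Matrix (PR C) (PR C) (FF K)) δ γ = (EE (K := K) γ.1).2 δ.1 := by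
      by_cases h : δ = γ
      · subst h
        rw [EE_self, Matrix.one_apply_eq]
      · rw [Matrix.one_apply_ne h, EE_ne]
        intro h'
        exact h (Subtype.ext h')
    have h2 : Um g δ γ = (rootMap β a (EE (K := K) γ.1)).2 δ.1 := by
      show (g.1 (EE (K := K) γ.1)).2 δ.1 = _
      rw [hg]
    rw [h1, h2] at h
    have h3 := (rootMap_EE β γ.1 hβ γ.2 a).2 δ.1 h
    have h4 : ht δ.1 = ht β + ht γ.1 := by
      unfold ht
      rw [h3, ← Finset.sum_add_distrib]
      rfl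
    have := ht_pos_of hβ
    omega
  have hT : (Um g).BlockTriangular (fun γ : PR C => - ht γ.1) := by
    intro δ γ h
    by_contra h1
    have h2 : δ ≠ γ := by
      rintro rfl
      exact lt_irrefl _ h
    have h3 := key δ γ (by rw [Matrix.one_apply_ne h2]; exact h1)
    simp only at h
    omega
  rw [hT.det]
  apply Finset.prod_eq_one
  intro k _
  have h1 : (Um g).toSquareBlock (fun γ : PR C => - ht γ.1) k = 1 := by
    ext1 δ γ
    have hδγ : ht δ.1.1 = ht γ.1.1 := by
      have h1 := δ.2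
      have h2 := γ.2
      omega
    have h2 : Um g δ.1 γ.1 = (1 : Matrix (PR C) (PR C) (FF K)) δ.1 γ.1 := by
      by_contra h
      have := key _ _ h
      omega
    rw [Matrix.toSquareBlock_def, Matrix.of_apply, h2]
    by_cases h : δ = γ
    · subst h
      rw [Matrix.one_apply_eq, Matrix.one_apply_eq]
    · rw [Matrix.one_apply_ne h, Matrix.one_apply_ne]
      intro h'
      exact h (Subtype.ext h')
  rw [h1, Matrix.det_one]

theorem ug_props [Fintype (PR C)] [DecidableEq (PR C)] (hC : SimplyLaced C) (u : grp C K)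
    (hu : u ∈ Ug C K) : Pres u ∧ Pres u⁻¹ ∧ (Um u).det = 1 := by
  unfold Ug at hu
  induction hu using Subgroup.closure_induction with
  | mem g hg =>
    obtain ⟨β, a, hβ, hg⟩ := hg
    refine ⟨pres_gen β hβ a g hg, ?_, det_gen β hβ a g hg⟩
    apply pres_gen β hβ (-a)
    intro v
    have h1 : g = xg hC β a := by
      apply Subtype.ext
      ext1 v
      rw [hg v]
      rfl
    have h2 : (xg hC β a)⁻¹ = xg hC β (-a) := by
      apply Subtype.ext
      show (xr hC β a)⁻¹ = xr hC β (-a)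
      exact xr_inv hC β a
    rw [h1, h2]
    rfl
  | one =>
    refine ⟨Pres.one, ?_, ?_⟩
    · rw [inv_one]; exact Pres.one
    · rw [Um_one, Matrix.det_one]
  | mul g h _ _ hg hh =>
    refine ⟨hg.1.mul hh.1, ?_, ?_⟩
    · rw [mul_inv_rev]
      exact hh.2.1.mul hg.2.1
    · rw [Um_mul g hh.1, Matrix.det_mul, hg.2.2, hh.2.2, one_mul]
  | inv g _ hg =>
    refine ⟨hg.2.1, ?_, ?_⟩
    · rw [inv_inv]; exact hg.1
    · have h1 := Um_mul g⁻¹ hg.1
      rw [inv_mul_cancel, Um_one] at h1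
      have h2 := congrArg Matrix.det h1
      rw [Matrix.det_one, Matrix.det_mul, hg.2.2, mul_one] at h2
      exact h2.symm

/-- The basis vectors. -/
noncomputable def bas (C : Matrix (Fin r) (Fin r) ℤ) (K : Type) [Field K] :
    Fin r ⊕ Rt C → LieV C (FF K)
  | Sum.inl i => (Pi.single i 1, 0)
  | Sum.inr δ => EE δ

theorem bas_decomp [Fintype (Rt C)] (v : LieV C (FF K)) : v = ∑ s, cc v s • bas C K s := by
  classical
  apply ext_cc
  intro s
  rw [cc_sum, Fintype.sum_sum_type]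
  cases s with
  | inl i =>
    have h1 : ∀ δ : Rt C, cc v (Sum.inr δ) * cc (bas C K (Sum.inr δ)) (Sum.inl i) = 0 := by
      intro δ
      show cc v (Sum.inr δ) * (EE (K := K) δ).1 i = 0
      rw [EE_fst]; simp
    have h2 : ∀ j : Fin r, cc v (Sum.inl j) * cc (bas C K (Sum.inl j)) (Sum.inl i) =
        if j = i then cc v (Sum.inl j) else 0 := by
      intro j
      show cc v (Sum.inl j) * (Pi.single j 1 : Fin r → FF K) i = _
      rw [Pi.single_apply]
      by_cases h : i = j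
      · simp [h]
      · simp [h, Ne.symm h]
    simp only [h1, h2, Finset.sum_const_zero, add_zero, Finset.sum_ite_eq', Finset.mem_univ,
      if_true]
  | inr γ =>
    have h1 : ∀ j : Fin r, cc v (Sum.inl j) * cc (bas C K (Sum.inl j)) (Sum.inr γ) = 0 := by
      intro j
      show cc v (Sum.inl j) * (0 : Rt C → FF K) γ = 0
      simp
    have h2 : ∀ δ : Rt C, cc v (Sum.inr δ) * cc (bas C K (Sum.inr δ)) (Sum.inr γ) =
        if δ = γ then cc v (Sum.inr δ) else 0 := by
      intro δ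
      show cc v (Sum.inr δ) * (EE (K := K) δ).2 γ = _
      by_cases h : δ = γ
      · subst h
        rw [EE_self]; simp
      · rw [EE_ne (Ne.symm h)]; simp [h]
    simp only [h1, h2, Finset.sum_const_zero, zero_add, Finset.sum_ite_eq', Finset.mem_univ,
      if_true]

theorem left_inv [Fintype (Rt C)] [DecidableEq (PR C)] (g : grp C K) :
    (Matrix.of fun (β : PR C) (s : Fin r ⊕ Rt C) => (g.1 (bas C K s)).2 β.1) * Bm g⁻¹ = 1 := by
  ext1 β γ
  rw [Matrix.mul_apply]
  have h1 : g.1 ((g⁻¹).1 (EE (K := K) γ.1)) = EE γ.1 := by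
    rw [← coe_mul_app, mul_inv_cancel, coe_one_app]
  have h2 : cc (g.1 ((g⁻¹).1 (EE (K := K) γ.1))) (Sum.inr β.1) =
      ∑ s, cc ((g⁻¹).1 (EE (K := K) γ.1)) s * cc (g.1 (bas C K s)) (Sum.inr β.1) := by
    conv_lhs => rw [bas_decomp ((g⁻¹).1 (EE (K := K) γ.1)), map_sum]
    simp only [map_smul]
    rw [cc_sum]
  rw [h1] at h2
  have h3 : (1 : Matrix (PR C) (PR C) (FF K)) β γ = cc (EE (K := K) γ.1) (Sum.inr β.1) := by
    show _ = (EE (K := K) γ.1).2 β.1
    by_cases h : β = γ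
    · subst h
      rw [EE_self, Matrix.one_apply_eq]
    · rw [Matrix.one_apply_ne h, EE_ne]
      intro h'
      exact h (Subtype.ext h')
  rw [h3, h2]
  refine Finset.sum_congr rfl fun s _ => ?_
  rw [mul_comm]
  rfl

theorem sum_Bd (h1 : Fld1Stmt) {ι : Type} (s : Finset ι) (m : ℤ) (a : ι → FF K)
    (h : ∀ i ∈ s, a i ∈ Bd K m) : ∑ i ∈ s, a i ∈ Bd K m := by
  classical
  induction s using Finset.induction_on with
  | empty => simpa using (h1 K).1 m
  | insert i s hi ih =>
    rw [Finset.sum_insert hi]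
    exact (h1 K).2.1 m _ _ (h i (Finset.mem_insert_self _ _))
      (ih fun j hj => h j (Finset.mem_insert_of_mem hj))

theorem prod_Bd (h1 : Fld1Stmt) {ι : Type} (s : Finset ι) (m : ι → ℤ) (a : ι → FF K)
    (h : ∀ i ∈ s, a i ∈ Bd K (m i)) : ∏ i ∈ s, a i ∈ Bd K (∑ i ∈ s, m i) := by
  classical
  induction s using Finset.induction_on with
  | empty =>
    have := (h1 K).2.2.2.2.2.1 1
    simpa using this
  | insert i s hi ih =>
    rw [Finset.prod_insert hi, Finset.sum_insert hi]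
    exact (h1 K).2.2.2.1 _ _ _ _ (h i (Finset.mem_insert_self _ _))
      (ih fun j hj => h j (Finset.mem_insert_of_mem hj))

theorem det_Bd (h1 : Fld1Stmt) {κ : Type} [Fintype κ] [DecidableEq κ] (m : κ → ℤ)
    (A : Matrix κ κ (FF K)) (h : ∀ i j, A i j ∈ Bd K (m j)) : A.det ∈ Bd K (∑ j, m j) := by
  rw [Matrix.det_apply]
  refine sum_Bd h1 _ _ _ fun σ _ => ?_
  have h2 : ∏ i, A (σ i) i ∈ Bd K (∑ j, m j) := prod_Bd h1 _ _ _ fun i _ => h _ _
  rcases Int.units_eq_one_or (Equiv.Perm.sign σ) with h3 | h3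
  · rw [h3, one_smul]
    exact h2
  · rw [h3, Units.neg_smul, one_smul]
    exact (h1 K).2.2.1 _ _ h2

theorem bnd_main (hMin : MinStmt) (h1 : Fld1Stmt) (h2 : Fld2Stmt) (hBdg : BdgStmt)
    (hRF : RootFinStmt) (hTor : TorStmt) (hNrm : NrmStmt) : BndStmt := by
  classical
  intro r C hC K _ x
  have _ := hRF r C hC
  have _ : Fintype (Rt C) := Fintype.ofFinite _
  have _ : Fintype (PR C) := Fintype.ofFinite _
  obtain ⟨g0, rfl⟩ : ∃ g0 : grp C K, pt g0 = x := ⟨x.out, QuotientGroup.out_eq' x⟩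
  obtain ⟨m0, hm0, -⟩ := (hBdg r C hC K).1 g0
  refine ⟨∑ _β : PR C, (m0 : ℤ), ?_⟩
  intro γ hγ u hu l g hg hx
  rw [finsum_eq_sum_of_fintype]
  obtain ⟨hu1, -, hu3⟩ := ug_props hC u hu
  -- the element of the maximal compact subgroup
  have hk : (γ * g0)⁻¹ * (u * g) ∈ maxK C K := QuotientGroup.eq.mp hx
  obtain ⟨k, hkdef⟩ : ∃ k, k = (γ * g0)⁻¹ * (u * g) := ⟨_, rfl⟩
  rw [← hkdef] at hk
  have hdec : γ⁻¹ * u = (g0 * k) * g⁻¹ := by
    rw [hkdef]; group
  -- the minor
  obtain ⟨s, hs⟩ := hMin (FF K) (Fin r ⊕ Rt C) (PR C) (Bm γ⁻¹) _ (left_inv γ)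
  -- polynomial entries
  have hent : ∀ (t : Fin r ⊕ Rt C) (β : PR C), ∃ p : Polynomial K, polyL K p = Bm γ⁻¹ t β := by
    intro t β
    have h3 : Cd (ringA K 1 : Set (FF K)) ((γ⁻¹).1 (EE (K := K) β.1)) := by
      refine (hNrm r C hC K 1 1 one_ne_zero one_ne_zero isCoprime_one_left).2.2.2.2.2 γ⁻¹
        (inv_mem hγ) _ ⟨fun i => ?_, fun δ => ?_⟩
      · rw [EE_fst]
        exact (ringA K 1).zero_mem
      · by_cases h : δ = β.1
        · rw [h, EE_self]
          exact (ringA K 1).one_mem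
        · rw [EE_ne h]
          exact (ringA K 1).zero_mem
    have h4 : Bm γ⁻¹ t β ∈ (ringA K 1 : Set (FF K)) := by
      cases t with
      | inl i => exact h3.1 i
      | inr δ => exact h3.2 δ
    rw [(h2 K).2.2.2.2] at h4
    exact h4
  choose p hp using hent
  have hdet1 : ((Bm γ⁻¹).submatrix s id).det = polyL K (Matrix.of fun i j => p (s i) j).det := by
    rw [RingHom.map_det]
    congr 1
    ext1 i j
    show Bm γ⁻¹ (s i) j = polyL K (p (s i) j)
    rw [hp]
  have hp0 : (Matrix.of fun i j => p (s i) j).det ≠ 0 := by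
    intro h
    apply hs
    rw [hdet1, h, map_zero]
  have hdet2 : ((Bm (γ⁻¹ * u)).submatrix s id).det = ((Bm γ⁻¹).submatrix s id).det := by
    rw [Bm_mul _ hu1]
    have : (Bm γ⁻¹ * Um u).submatrix s id = (Bm γ⁻¹).submatrix s id * Um u := by
      ext1 i j
      rw [Matrix.submatrix_apply, Matrix.mul_apply, Matrix.mul_apply]
      rfl
    rw [this, Matrix.det_mul, hu3, mul_one]
  have hbound : ((Bm (γ⁻¹ * u)).submatrix s id).det ∈
      Bd K (∑ β : PR C, ((m0 : ℤ) - ip C β.1.1 l)) := by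
    apply det_Bd h1
    intro i β
    rw [Matrix.submatrix_apply, hdec]
    show cc ((g0 * k * g⁻¹).1 (EE (K := K) β.1)) (s i) ∈ _
    have hginv := (hTor r C hC K).2.2.1 l g hg
    have h3 : (g⁻¹).1 (EE (K := K) β.1) = tt K ^ (-(ip C β.1.1 l)) • EE β.1 := by
      rw [hginv]
      refine Prod.ext ?_ ?_
      · rw [Prod.smul_fst, EE_fst, smul_zero]
      · funext δ
        show tt K ^ (ip C δ.1 (-l)) * (EE (K := K) β.1).2 δ = tt K ^ (-(ip C β.1.1 l)) •
          (EE (K := K) β.1).2 δ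
        rw [ip_neg_right, smul_eq_mul]
        by_cases h : δ = β.1
        · rw [h]
        · rw [EE_ne h, mul_zero, mul_zero]
    rw [coe_mul_app, h3, map_smul, cc_smul]
    have h4 : bnd (m0 : ℤ) (g0 * k) := by
      have h5 := ((hBdg r C hC K).2.2 k).mp hk
      have := (hBdg r C hC K).2.1 m0 0 g0 k hm0 h5.1
      rwa [add_zero] at this
    have h1K := (h1 K).2.2.2.2.2.1 1
    rw [Int.cast_one] at h1K
    have h0K := (h1 K).1 0
    have h6 := h4 (EE (K := K) β.1) ⟨fun i => by rw [EE_fst]; exact h0K, fun δ => by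
      by_cases h : δ = β.1
      · rw [h, EE_self]; exact h1K
      · rw [EE_ne h]; exact h0K⟩
    have h7 : cc ((g0 * k).1 (EE (K := K) β.1)) (s i) ∈ Bd K m0 := by
      cases s i with
      | inl i => exact h6.1 i
      | inr δ => exact h6.2 δ
    have h8 : tt K ^ (-(ip C β.1.1 l)) ∈ Bd K (-(ip C β.1.1 l)) := by
      have := ((h1 K).2.2.2.2.2.2.2.1 (-(ip C β.1.1 l)) 1).mpr h1K
      rwa [mul_one] at this
    have h9 := (h1 K).2.2.2.1 _ _ _ _ h8 h7
    have h10 : -(ip C β.1.1 l) + (m0 : ℤ) = (m0 : ℤ) - ip C β.1.1 l := by ring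
    rwa [h10] at h9
  rw [hdet2, hdet1] at hbound
  have h3 := (h2 K).2.2.1 _ _ hp0 hbound
  rw [Finset.sum_sub_distrib] at h3
  have h4 : (0 : ℤ) ≤ ((Matrix.of fun i j => p (s i) j).det.natDegree : ℤ) := by positivity
  linarith

end

/-- BND. -/
theorem bnd_proof (hMin : MinStmt) (h1 : Fld1Stmt) (h2 : Fld2Stmt) (hBdg : BdgStmt)
    (hRF : RootFinStmt) (hTor : TorStmt) (hNrm : NrmStmt) : BndStmt :=
  bnd_main hMin h1 h2 hBdg hRF hTor hNrm

end Pool.Agent.DEN.H76
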